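import Pool.Agent.Helper12_NGR.Stmts

/-!
# Witte Morris' theorem without measures

A countable left-orderable group with the Foelner condition has a Conradian order.
-/

universe u

namespace Pool.Agent.NGR.H81

open Finset
open scoped Pointwise

variable {G : Type u} [Group G]

/-- The conjugate of a cone. -/
def cj (P : Set G) (x : G) : Set G := {g | x * g * x⁻¹ ∈ P}

theorem cj_cone {P : Set G} (h : IsCone P) (x : G) : IsCone (cj P x) where
  mul a ha b hb := by
    have := h.mul _ ha _ hb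
    change x * (a * b) * x⁻¹ ∈ P
    have e : x * (a * b) * x⁻¹ = x * a * x⁻¹ * (x * b * x⁻¹) := by group
    rw [e]
    exact this
  one h1 := by
    change x * 1 * x⁻¹ ∈ P at h1
    rw [mul_one, mul_inv_cancel] at h1
    exact h.one h1
  tot a ha := by
    have h1 : x * a * x⁻¹ ≠ 1 := by
      intro h2
      apply ha
      have : a = x⁻¹ * (x * a * x⁻¹) * x := by group
      rw [this, h2]
      group
    rcases h.tot _ h1 with h3 | h3
    · exact Or.inl h3
    · right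
      change x * a⁻¹ * x⁻¹ ∈ P
      have e : x * a⁻¹ * x⁻¹ = (x * a * x⁻¹)⁻¹ := by group
      rw [e]
      exact h3

/-- Bad set for a pair. -/
def bad (P : Set G) (a b : G) (J : ℕ) : Set G :=
  {x | a ∈ cj P x ∧ ∀ n, 1 ≤ n → n < J → (b ^ n)⁻¹ * a * b ^ n ∉ cj P x}

theorem bad_disj {P : Set G} {a b x y : G} {J j k : ℕ} (hx : x ∈ bad P a b J)
    (hy : y ∈ bad P a b J) (hjk : j < k) (hk : k < J) : x * b ^ j ≠ y * b ^ k := by
  intro h
  obtain ⟨n, rfl⟩ : ∃ n, k = j + n := ⟨k - j, by omega⟩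
  have e : y * b ^ n = x := by
    have h1 : x * b ^ j = y * b ^ n * b ^ j := by
      rw [h, Nat.add_comm, pow_add, mul_assoc]
    exact (mul_right_cancel h1).symm
  apply hx.2 n (by omega) (by omega)
  change x * ((b ^ n)⁻¹ * a * b ^ n) * x⁻¹ ∈ P
  have h2 : x * ((b ^ n)⁻¹ * a * b ^ n) * x⁻¹ = y * a * y⁻¹ := by
    rw [← e]
    group
  rw [h2]
  exact hy.1

theorem bad_card {P : Set G} {a b : G} {J : ℕ} {F K : Set G} (hK : K.Finite)
    (hF : F.Finite) (hs : ∀ x ∈ F, ∀ j < J, x * b ^ j ∈ K) :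
    J * (bad P a b J ∩ F).ncard ≤ K.ncard := by
  classical
  have hfin : (bad P a b J ∩ F).Finite := hF.subset Set.inter_subset_right
  have h1 : ((bad P a b J ∩ F) ×ˢ (Set.Iio J)).ncard ≤ K.ncard := by
    refine Set.ncard_le_ncard_of_injOn (fun p : G × ℕ => p.1 * b ^ p.2) ?_ ?_ hK
    · rintro ⟨x, j⟩ ⟨hx, hj⟩
      exact hs x hx.2 j hj
    · rintro ⟨x, j⟩ ⟨hx, hj⟩ ⟨y, k⟩ ⟨hy, hk⟩ h
      have hj' : j < J := hj
      have hk' : k < J := hk
      have h' : x * b ^ j = y * b ^ k := h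
      rcases lt_trichotomy j k with hlt | heq | hgt
      · exact (bad_disj hx.1 hy.1 hlt hk' h').elim
      · subst heq
        rw [mul_right_cancel h']
      · exact (bad_disj hy.1 hx.1 hgt hj' h'.symm).elim
  rw [Set.ncard_prod] at h1
  have h2 : (Set.Iio J).ncard = J := by
    rw [Set.ncard_eq_toFinset_card', Set.toFinset_Iio, Nat.card_Iio]
  rw [h2, Nat.mul_comm] at h1
  exact h1

theorem exists_good [Countable G] (hFo : Foelner G) (P : Set G) (e : ℕ → G × G) (m : ℕ) :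
    ∃ x : G, ∀ i < m, x ∉ bad P (e i).1 (e i).2 (2 ^ (i + 2)) := by
  classical
  let S : Set G := ⋃ i ∈ Set.Iio m, ⋃ j ∈ Set.Iio (2 ^ (i + 2)), {(e i).2 ^ j}
  have hS : S.Finite := (Set.finite_Iio m).biUnion fun i _ =>
    (Set.finite_Iio _).biUnion fun j _ => Set.finite_singleton _
  obtain ⟨F, hF, hne, hc⟩ := hFo S hS 1
  have hK : (F * S ∪ F).Finite := (hF.mul hS).union hF
  have hb : ∀ i < m, 2 ^ (i + 2) * (bad P (e i).1 (e i).2 (2 ^ (i + 2)) ∩ F).ncard
      ≤ 2 * F.ncard := by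
    intro i hi
    refine le_trans (bad_card hK hF ?_) (by simpa using hc)
    intro x hx j hj
    left
    refine Set.mul_mem_mul hx ?_
    simp only [S, Set.mem_iUnion]
    exact ⟨i, hi, j, hj, rfl⟩
  by_contra hcon
  push Not at hcon
  have hcov : F ⊆ ⋃ i ∈ Finset.range m, (bad P (e i).1 (e i).2 (2 ^ (i + 2)) ∩ F) := by
    intro x hx
    obtain ⟨i, hi, h⟩ := hcon x
    simp only [Set.mem_iUnion]
    exact ⟨i, Finset.mem_range.2 hi, h, hx⟩
  have hle : F.ncard ≤ ∑ i ∈ Finset.range m,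
      (bad P (e i).1 (e i).2 (2 ^ (i + 2)) ∩ F).ncard := by
    refine le_trans (Set.ncard_le_ncard hcov ?_) (Finset.set_ncard_biUnion_le _ _)
    exact hF.subset (Set.iUnion₂_subset fun i _ => Set.inter_subset_right)
  have hpos : (0 : ℝ) < F.ncard := by
    have := (Set.ncard_pos hF).2 hne
    exact_mod_cast this
  have h3 : (F.ncard : ℝ) ≤ ∑ i ∈ Finset.range m, (F.ncard : ℝ) * (1 / 2) ^ (i + 1) := by
    have h4 : (F.ncard : ℝ) ≤ ∑ i ∈ Finset.range m,
      ((bad P (e i).1 (e i).2 (2 ^ (i + 2)) ∩ F).ncard : ℝ) := by exact_mod_cast hle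
    refine h4.trans (Finset.sum_le_sum fun i hi => ?_)
    have h5 := hb i (Finset.mem_range.1 hi)
    have h6 : (2 : ℝ) ^ (i + 2) * ((bad P (e i).1 (e i).2 (2 ^ (i + 2)) ∩ F).ncard : ℝ)
        ≤ 2 * F.ncard := by exact_mod_cast h5
    have h7 : (0 : ℝ) < 2 ^ (i + 1) := by positivity
    rw [one_div, inv_pow, ← div_eq_mul_inv, le_div_iff₀ h7]
    have h8 : (2 : ℝ) ^ (i + 2) = 2 * 2 ^ (i + 1) := by ring
    rw [h8] at h6
    nlinarith [h6]
  have h9 : ∀ k : ℕ, ∑ i ∈ Finset.range k, ((1 : ℝ) / 2) ^ (i + 1) = 1 - (1 / 2) ^ k := by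
    intro k
    induction k with
    | zero => simp
    | succ k ih => rw [Finset.sum_range_succ, ih]; ring
  rw [← Finset.mul_sum, h9 m] at h3
  have h10 : (0 : ℝ) < (1 / 2) ^ m := by positivity
  nlinarith [mul_pos hpos h10]

/-- WMA. -/
theorem wma : WmaStmt.{u} := by
  intro G _ _ hFo hLO
  classical
  obtain ⟨P, hP⟩ := hLO
  obtain ⟨e, he⟩ := exists_surjective_nat (G × G)
  choose x hx using exists_good hFo P e
  let U : Ultrafilter ℕ := Filter.hyperfilter ℕ
  have hU : ∀ i : ℕ, ∀ᶠ m in (U : Filter ℕ), i < m := by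
    intro i
    have h1 : (U : Filter ℕ) ≤ Filter.cofinite := Filter.hyperfilter_le_cofinite
    have h2 : ∀ᶠ m in Filter.cofinite, i < m := by
      rw [Nat.cofinite_eq_atTop]
      exact Filter.eventually_gt_atTop i
    exact h1 h2
  refine ⟨{g | ∀ᶠ m in (U : Filter ℕ), g ∈ cj P (x m)}, ⟨?_, ?_, ?_⟩, ?_⟩
  · intro a ha b hb
    filter_upwards [ha, hb] with m h1 h2
    exact (cj_cone hP (x m)).mul a h1 b h2
  · intro h
    have h2 : ∀ᶠ m in (U : Filter ℕ), False := by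
      filter_upwards [h] with m h1
      exact (cj_cone hP (x m)).one h1
    exact (U.neBot.ne (Filter.eventually_false_iff_eq_bot.1 h2)).elim
  · intro a ha
    have h : ∀ᶠ m in (U : Filter ℕ), a ∈ cj P (x m) ∨ a⁻¹ ∈ cj P (x m) :=
      Filter.Eventually.of_forall fun m => (cj_cone hP (x m)).tot a ha
    exact Ultrafilter.eventually_or.1 h
  · intro a ha b hb
    obtain ⟨i, hi⟩ := he (a, b)
    have h1 : ∀ᶠ m in (U : Filter ℕ), ∃ n ∈ Set.Ico 1 (2 ^ (i + 2)),
        (b ^ n)⁻¹ * a * b ^ n ∈ cj P (x m) := by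
      filter_upwards [ha, hU i] with m h2 h3
      have h4 := hx m i h3
      rw [hi] at h4
      by_contra h5
      apply h4
      refine ⟨h2, fun n hn1 hn2 hn3 => h5 ⟨n, ⟨hn1, hn2⟩, hn3⟩⟩
    have h2 : ∃ n ∈ Set.Ico 1 (2 ^ (i + 2)), ∀ᶠ m in (U : Filter ℕ),
        (b ^ n)⁻¹ * a * b ^ n ∈ cj P (x m) := by
      have h3 : (⋃ n ∈ Set.Ico 1 (2 ^ (i + 2)),
          {m | (b ^ n)⁻¹ * a * b ^ n ∈ cj P (x m)}) ∈ U := by
        refine Filter.mem_of_superset h1 ?_
        intro m hm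
        obtain ⟨n, hn, hn2⟩ := hm
        simp only [Set.mem_iUnion]
        exact ⟨n, hn, hn2⟩
      obtain ⟨n, hn, h4⟩ := (Ultrafilter.finite_biUnion_mem_iff (Set.finite_Ico _ _)).1 h3
      exact ⟨n, hn, h4⟩
    obtain ⟨n, ⟨hn1, _⟩, hn3⟩ := h2
    refine ⟨n, hn1, ?_⟩
    change ∀ᶠ m in (U : Filter ℕ), b⁻¹ * a * b ^ n ∈ cj P (x m)
    obtain ⟨k, rfl⟩ : ∃ k, n = k + 1 := ⟨n - 1, by omega⟩
    have e1 : b⁻¹ * a * b ^ (k + 1) = b ^ k * ((b ^ (k + 1))⁻¹ * a * b ^ (k + 1)) := by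
      rw [pow_succ]
      group
    filter_upwards [hn3, hb] with m h5 h6
    rw [e1]
    have hpow : ∀ k : ℕ, k = 0 ∨ b ^ k ∈ cj P (x m) := by
      intro k
      induction k with
      | zero => exact Or.inl rfl
      | succ k ih =>
        right
        rcases ih with ih | ih
        · subst ih
          simpa using h6
        · rw [pow_succ]
          exact (cj_cone hP (x m)).mul _ ih _ h6
    rcases hpow k with hk | hk
    · subst hk
      rw [pow_zero, one_mul]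
      exact h5
    · exact (cj_cone hP (x m)).mul _ hk _ h5

end Pool.Agent.NGR.H81
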